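import Mathlib

/-!
# Lower bounds for the isolation number of a Cartesian product

Question (MP_33f02b_co, Q1): is `iota (G □ H) ≥ gammaI G * iota H` for all finite graphs?

Here `iota` is the isolation number, `gamma` the domination number and `gammaI` the
independence-domination number.  We prove, for all finite simple graphs `G`, `H`,

* `iota (G □ H) ≥ gamma G * iota* H` and `iota (G □ H) ≥ gamma* G * iota H`, where the stars
  denote the fractional versions (as fractional packings);
* `iota (G □ H) ≥ gamma G * iota H` if one of the two factors is a forest;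
* `iota (G □ H) ≥ gammaI G * iota H` if `gammaI G ≤ 2`, or `iota H ≤ 2`, or
  `iota H = gamma H`, or one factor is a forest.

Ideas.  `partition_bound`: if `V(H)` is partitioned into `t` classes such that isolating the
edges inside the union of any `j` classes takes at least `j` vertices of `H`, then
`iota (G □ H) ≥ gammaI G * t` (the argument of Aharoni and Szabo for domination).
For `gammaI G = 2`: given an isolating set `D` of `G □ H` and an independent set `I` of `G`
which needs two dominators, split `I` into two nonempty parts and the layers of `H` containing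
vertices of `D` outside `I` into a maximal independent set and its complement; this splits `D`
into two isolating sets of `H`.  For forests: a greedy argument gives an isolating set and a
packing of edge-neighbourhoods of the same size.
-/

open Finset

namespace Pool.Agent.Results.MP_33f02b_co.IsolationProductBounds

variable {V W : Type*}

/-- `Dom G A v` says that `v` lies in the closed neighbourhood `N[A]`. -/
def Dom (G : SimpleGraph V) (A : Finset V) (v : V) : Prop :=
  v ∈ A ∨ ∃ a ∈ A, G.Adj a v

/-- `A` is isolating: no edge has both endpoints outside `N[A]`. -/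
def Isolating (G : SimpleGraph V) (A : Finset V) : Prop :=
  ∀ u v, G.Adj u v → Dom G A u ∨ Dom G A v

/-- The isolation number. -/
noncomputable def iota (G : SimpleGraph V) : ℕ :=
  sInf {n | ∃ A : Finset V, Isolating G A ∧ A.card = n}

/-- The domination number. -/
noncomputable def gamma (G : SimpleGraph V) : ℕ :=
  sInf {n | ∃ A : Finset V, (∀ v, Dom G A v) ∧ A.card = n}

/-- The least number of vertices of `G` dominating the set `I`. -/
noncomputable def domSet (G : SimpleGraph V) (I : Finset V) : ℕ :=
  sInf {n | ∃ A : Finset V, (∀ v ∈ I, Dom G A v) ∧ A.card = n}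

/-- The independence-domination number. -/
noncomputable def gammaI (G : SimpleGraph V) : ℕ :=
  sSup {n | ∃ I : Finset V, (∀ u ∈ I, ∀ v ∈ I, ¬ G.Adj u v) ∧ domSet G I = n}

lemma Dom.mono {G : SimpleGraph V} {A B : Finset V} (h : A ⊆ B) {v : V} (hv : Dom G A v) :
    Dom G B v := by
  rcases hv with hv | ⟨a, ha, hav⟩
  · exact Or.inl (h hv)
  · exact Or.inr ⟨a, h ha, hav⟩

lemma iota_le (G : SimpleGraph V) (A : Finset V) (h : Isolating G A) : iota G ≤ A.card :=
  Nat.sInf_le ⟨A, h, rfl⟩

lemma gamma_le (G : SimpleGraph V) (A : Finset V) (h : ∀ v, Dom G A v) : gamma G ≤ A.card :=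
  Nat.sInf_le ⟨A, h, rfl⟩

lemma domSet_le (G : SimpleGraph V) (I A : Finset V) (h : ∀ v ∈ I, Dom G A v) :
    domSet G I ≤ A.card :=
  Nat.sInf_le ⟨A, h, rfl⟩

lemma exists_iota [Fintype V] (G : SimpleGraph V) :
    ∃ A : Finset V, Isolating G A ∧ A.card = iota G := by
  have h : ({n | ∃ A : Finset V, Isolating G A ∧ A.card = n} : Set ℕ).Nonempty :=
    ⟨_, Finset.univ, fun u v _ => Or.inl (Or.inl (Finset.mem_univ u)), rfl⟩
  exact Nat.sInf_mem h

lemma exists_gamma [Fintype V] (G : SimpleGraph V) :
    ∃ A : Finset V, (∀ v, Dom G A v) ∧ A.card = gamma G := by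
  have h : ({n | ∃ A : Finset V, (∀ v, Dom G A v) ∧ A.card = n} : Set ℕ).Nonempty :=
    ⟨_, Finset.univ, fun v => Or.inl (Finset.mem_univ v), rfl⟩
  exact Nat.sInf_mem h

lemma exists_gammaI [Fintype V] (G : SimpleGraph V) :
    ∃ I : Finset V, (∀ u ∈ I, ∀ v ∈ I, ¬ G.Adj u v) ∧ domSet G I = gammaI G := by
  have hne : ({n | ∃ I : Finset V, (∀ u ∈ I, ∀ v ∈ I, ¬ G.Adj u v) ∧ domSet G I = n} :
      Set ℕ).Nonempty := ⟨_, ∅, by simp, rfl⟩
  have hb : BddAbove {n | ∃ I : Finset V, (∀ u ∈ I, ∀ v ∈ I, ¬ G.Adj u v) ∧ domSet G I = n} := by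
    refine ⟨Fintype.card V, ?_⟩
    rintro n ⟨I, -, rfl⟩
    have := domSet_le G I Finset.univ (fun v _ => Or.inl (Finset.mem_univ v))
    simpa using this
  exact Nat.sSup_mem hne hb

/-- The slice of `D` over `g`. -/
noncomputable def slice (D : Finset (V × W)) (g : V) : Finset W :=
  open Classical in (D.filter (fun p => p.1 = g)).image Prod.snd

lemma mem_slice {D : Finset (V × W)} {g : V} {h : W} : h ∈ slice D g ↔ (g, h) ∈ D := by
  classical
  unfold slice
  constructor
  · intro hh
    obtain ⟨p, hp, rfl⟩ := Finset.mem_image.1 hh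
    obtain ⟨hp1, rfl⟩ := Finset.mem_filter.1 hp
    exact hp1
  · intro hh
    exact Finset.mem_image.2 ⟨(g, h), Finset.mem_filter.2 ⟨hh, rfl⟩, rfl⟩

lemma card_slice [DecidableEq V] (D : Finset (V × W)) (g : V) :
    (slice D g).card = (D.filter (fun p => p.1 = g)).card := by
  classical
  unfold slice
  rw [Finset.card_image_of_injOn]
  · congr
  · intro p hp q hq h
    simp only [Finset.coe_filter, Set.mem_ofPred_eq] at hp hq
    exact Prod.ext (hp.2.trans hq.2.symm) h

/-- Main counting lemma: a partition of `V(H)` into `|T|` classes such that every union of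
`j` classes needs at least `j` vertices of `H` to isolate its edges gives the product bound. -/
lemma partition_bound [Fintype V] [Fintype W] {T : Type*} [Fintype T]
    (G : SimpleGraph V) (H : SimpleGraph W) (p : W → T)
    (hp : ∀ (J : Finset T) (X : Finset W),
      (∀ u v, H.Adj u v → p u ∈ J → p v ∈ J → Dom H X u ∨ Dom H X v) → J.card ≤ X.card) :
    gammaI G * Fintype.card T ≤ iota (G □ H) := by
  classical
  obtain ⟨I, hI, hk⟩ := exists_gammaI G
  obtain ⟨D, hD, hDc⟩ := exists_iota (G □ H)
  rw [← hk, ← hDc]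
  -- outside part of class `j`
  let Out : T → Finset (V × W) := fun j => D.filter (fun q => q.1 ∉ I ∧ p q.2 = j)
  let B : T → Finset V := fun j => I.filter (fun g => ∃ q ∈ Out j, G.Adj q.1 g)
  have h1 : ∀ j, domSet G I ≤ (Out j).card + (I.filter (fun g => g ∉ B j)).card := by
    intro j
    have := domSet_le G I ((Out j).image Prod.fst ∪ I.filter (fun g => g ∉ B j)) ?_
    · refine this.trans ((Finset.card_union_le _ _).trans ?_)
      exact Nat.add_le_add_right Finset.card_image_le _
    · intro g hg
      by_cases hgB : g ∈ B j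
      · obtain ⟨-, q, hq, hadj⟩ := Finset.mem_filter.1 hgB
        exact Or.inr ⟨q.1, Finset.mem_union_left _ (Finset.mem_image_of_mem _ hq), hadj⟩
      · exact Or.inl (Finset.mem_union_right _ (Finset.mem_filter.2 ⟨hg, hgB⟩))
  have h2 : ∀ g ∈ I, (Finset.univ.filter (fun j => g ∉ B j)).card ≤ (slice D g).card := by
    intro g hg
    apply hp
    intro u v huv hu hv
    have hu' : g ∉ B (p u) := (Finset.mem_filter.1 hu).2
    have hv' : g ∉ B (p v) := (Finset.mem_filter.1 hv).2
    have key : ∀ w, g ∉ B (p w) → Dom (G □ H) D (g, w) → Dom H (slice D g) w := by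
      intro w hw hdom
      rcases hdom with hmem | ⟨a, ha, hadj⟩
      · exact Or.inl (mem_slice.2 hmem)
      · rw [SimpleGraph.boxProd_adj] at hadj
        rcases hadj with ⟨h3, h4⟩ | ⟨h3, h4⟩
        · exfalso
          apply hw
          refine Finset.mem_filter.2 ⟨hg, a, ?_, h3⟩
          refine Finset.mem_filter.2 ⟨ha, ?_, ?_⟩
          · intro haI
            exact hI _ haI _ hg h3
          · exact congrArg p h4
        · refine Or.inr ⟨a.2, mem_slice.2 ?_, h3⟩
          have : a = (g, a.2) := Prod.ext h4 rfl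
          rw [← this]; exact ha
    have hadj : (G □ H).Adj (g, u) (g, v) := by
      rw [SimpleGraph.boxProd_adj]; exact Or.inr ⟨huv, rfl⟩
    rcases hD _ _ hadj with h | h
    · exact Or.inl (key u hu' h)
    · exact Or.inr (key v hv' h)
  -- sum up
  have h3 : domSet G I * Fintype.card T ≤
      ∑ j : T, ((Out j).card + (I.filter (fun g => g ∉ B j)).card) := by
    calc domSet G I * Fintype.card T = ∑ _j : T, domSet G I := by
          rw [Finset.sum_const, smul_eq_mul, Finset.card_univ, mul_comm]
      _ ≤ _ := Finset.sum_le_sum (fun j _ => h1 j)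
  have h4 : ∑ j : T, (I.filter (fun g => g ∉ B j)).card =
      ∑ g ∈ I, (Finset.univ.filter (fun j => g ∉ B j)).card := by
    simp_rw [Finset.card_filter]
    exact Finset.sum_comm
  have h5 : ∑ j : T, (Out j).card = (D.filter (fun q => q.1 ∉ I)).card := by
    have hcard : (D.filter (fun q => q.1 ∉ I)).card =
        ∑ j : T, ((D.filter (fun q => q.1 ∉ I)).filter (fun q => p q.2 = j)).card :=
      Finset.card_eq_sum_card_fiberwise (f := fun q : V × W => p q.2) (t := Finset.univ)
        (fun _ _ => Finset.mem_coe.2 (Finset.mem_univ _))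
    rw [hcard]
    refine Finset.sum_congr rfl (fun j _ => ?_)
    rw [Finset.filter_filter]
  have h6 : ∑ g ∈ I, (slice D g).card = (D.filter (fun q => q.1 ∈ I)).card := by
    have hcard : (D.filter (fun q => q.1 ∈ I)).card =
        ∑ g ∈ I, ((D.filter (fun q => q.1 ∈ I)).filter (fun q => q.1 = g)).card :=
      Finset.card_eq_sum_card_fiberwise (f := fun q : V × W => q.1) (t := I)
        (fun q hq => (Finset.mem_filter.1 hq).2)
    rw [hcard]
    refine Finset.sum_congr rfl (fun g hg => ?_)
    rw [card_slice, Finset.filter_filter]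
    congr 1
    ext q
    simp only [Finset.mem_filter]
    constructor
    · rintro ⟨h, rfl⟩; exact ⟨h, hg, rfl⟩
    · rintro ⟨h, -, h'⟩; exact ⟨h, h'⟩
  have h7 : (D.filter (fun q => q.1 ∈ I)).card + (D.filter (fun q => q.1 ∉ I)).card = D.card :=
    Finset.card_filter_add_card_filter_not _
  have h8 : ∑ g ∈ I, (Finset.univ.filter (fun j => g ∉ B j)).card ≤ ∑ g ∈ I, (slice D g).card :=
    Finset.sum_le_sum h2
  rw [Finset.sum_add_distrib, h4, h5] at h3
  omega


/-! ### Case `iota H ≤ 2` and case `iota H = gamma H` -/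

lemma bound_of_iota_zero (G : SimpleGraph V) (H : SimpleGraph W) [Fintype V] [Fintype W]
    (h : iota H = 0) : gammaI G * iota H ≤ iota (G □ H) := by
  rw [h]; simp

lemma bound_of_iota_one [Fintype V] [Fintype W] (G : SimpleGraph V) (H : SimpleGraph W)
    (h : iota H = 1) : gammaI G * iota H ≤ iota (G □ H) := by
  classical
  have := partition_bound (T := Fin 1) G H (fun _ => 0) (by
    intro J X hX
    by_cases hJ : (0 : Fin 1) ∈ J
    · have hiso : Isolating H X := fun u v huv => hX u v huv hJ hJ
      have h1 := iota_le H X hiso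
      have h2 : J.card ≤ 1 := by simpa using J.card_le_univ
      omega
    · have : J = ∅ := by
        ext x; have hx : x = 0 := Subsingleton.elim _ _
        subst hx; simp [hJ]
      simp [this])
  rw [h]; simpa using this

lemma bound_of_iota_two [Fintype V] [Fintype W] (G : SimpleGraph V) (H : SimpleGraph W)
    (h : iota H = 2) : gammaI G * iota H ≤ iota (G □ H) := by
  classical
  -- an edge `a b`
  obtain ⟨a, b, hab⟩ : ∃ a b, H.Adj a b := by
    by_contra hno
    push Not at hno
    have := iota_le H ∅ (fun u v huv => absurd huv (hno u v))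
    simp at this; omega
  -- an edge `c d` not meeting `N[a]`
  obtain ⟨c, d, hcd, hc, hd⟩ : ∃ c d, H.Adj c d ∧ ¬ Dom H {a} c ∧ ¬ Dom H {a} d := by
    by_contra hno
    push Not at hno
    have := iota_le H {a} (fun u v huv => by
      by_cases hu : Dom H {a} u
      · exact Or.inl hu
      · exact Or.inr (hno u v huv hu))
    simp at this; omega
  have hca : c ≠ a := fun e => hc (Or.inl (by simp [e]))
  have hda : d ≠ a := fun e => hd (Or.inl (by simp [e]))
  have hcb : c ≠ b := fun e => hc (Or.inr ⟨a, by simp, e ▸ hab⟩)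
  have hdb : d ≠ b := fun e => hd (Or.inr ⟨a, by simp, e ▸ hab⟩)
  have := partition_bound (T := Bool) G H (fun w => decide (w = a ∨ w = b)) (by
    intro J X hX
    by_cases ht : true ∈ J
    · by_cases hf : false ∈ J
      · have hall : ∀ t, t ∈ J := by intro t; cases t <;> assumption
        have hiso : Isolating H X := fun u v huv => hX u v huv (hall _) (hall _)
        have h1 := iota_le H X hiso
        have h2 : J.card ≤ 2 := by simpa using J.card_le_univ
        omega
      · have hJ : J = {true} := by
          ext t; cases t <;> simp [ht, hf]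
        have hne : X.Nonempty := by
          rcases hX a b hab (by simpa using ht) (by simpa using ht) with h | h <;>
            rcases h with h | ⟨x, hx, -⟩
          · exact ⟨_, h⟩
          · exact ⟨_, hx⟩
          · exact ⟨_, h⟩
          · exact ⟨_, hx⟩
        rw [hJ]; simpa using hne.card_pos
    · by_cases hf : false ∈ J
      · have hJ : J = {false} := by
          ext t; cases t <;> simp [ht, hf]
        have hc' : (decide (c = a ∨ c = b)) ∈ J := by simpa [hca, hcb] using hf
        have hd' : (decide (d = a ∨ d = b)) ∈ J := by simpa [hda, hdb] using hf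
        have hne : X.Nonempty := by
          rcases hX c d hcd hc' hd' with h | h <;>
            rcases h with h | ⟨x, hx, -⟩
          · exact ⟨_, h⟩
          · exact ⟨_, hx⟩
          · exact ⟨_, h⟩
          · exact ⟨_, hx⟩
        rw [hJ]; simpa using hne.card_pos
      · have hJ : J = ∅ := by
          ext t; cases t <;> simp [ht, hf]
        simp [hJ])
  rw [h]; simpa using this

lemma bound_of_gamma [Fintype V] [Fintype W] (G : SimpleGraph V) (H : SimpleGraph W)
    (h : iota H = gamma H) : gammaI G * iota H ≤ iota (G □ H) := by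
  classical
  obtain ⟨S, hS, hSc⟩ := exists_gamma H
  have hex : ∀ w, ∃ s : S, w = s.1 ∨ H.Adj s.1 w := by
    intro w
    rcases hS w with hw | ⟨s, hs, hsw⟩
    · exact ⟨⟨w, hw⟩, Or.inl rfl⟩
    · exact ⟨⟨s, hs⟩, Or.inr hsw⟩
  choose p hpp using hex
  have := partition_bound (T := S) G H p (by
    intro J X hX
    -- `(S \ J) ∪ X` is isolating
    have hiso : Isolating H ((S.filter (fun s => ∀ j ∈ J, j.1 ≠ s)) ∪ X) := by
      intro u v huv
      by_cases hu : p u ∈ J
      · by_cases hv : p v ∈ J
        · rcases hX u v huv hu hv with h | h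
          · exact Or.inl (h.mono Finset.subset_union_right)
          · exact Or.inr (h.mono Finset.subset_union_right)
        · right
          have hmem : (p v).1 ∈ S.filter (fun s => ∀ j ∈ J, j.1 ≠ s) ∪ X :=
            Finset.mem_union_left _ (Finset.mem_filter.2 ⟨(p v).2, fun j hj e =>
              hv (by rwa [← Subtype.ext e])⟩)
          rcases hpp v with e | e
          · exact Or.inl (by rw [e]; exact hmem)
          · exact Or.inr ⟨_, hmem, e⟩
      · left
        have hmem : (p u).1 ∈ S.filter (fun s => ∀ j ∈ J, j.1 ≠ s) ∪ X :=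
          Finset.mem_union_left _ (Finset.mem_filter.2 ⟨(p u).2, fun j hj e =>
            hu (by rwa [← Subtype.ext e])⟩)
        rcases hpp u with e | e
        · exact Or.inl (by rw [e]; exact hmem)
        · exact Or.inr ⟨_, hmem, e⟩
    have h1 := iota_le H _ hiso
    have h2 := Finset.card_union_le (S.filter (fun s => ∀ j ∈ J, j.1 ≠ s)) X
    have h3 : (S.filter (fun s => ∀ j ∈ J, j.1 ≠ s)).card + J.card ≤ S.card := by
      have hJc : (J.map (Function.Embedding.subtype _)).card = J.card := Finset.card_map _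
      rw [← hJc, ← Finset.card_union_of_disjoint]
      · apply Finset.card_le_card
        intro x hx
        rcases Finset.mem_union.1 hx with hx | hx
        · exact (Finset.mem_filter.1 hx).1
        · obtain ⟨y, -, rfl⟩ := Finset.mem_map.1 hx
          exact y.2
      · rw [Finset.disjoint_left]
        intro x hx hx'
        obtain ⟨y, hy, rfl⟩ := Finset.mem_map.1 hx'
        exact (Finset.mem_filter.1 hx).2 y hy rfl
    omega)
  rw [Fintype.card_coe, hSc, ← h] at this
  exact this

/-! ### Case `gammaI G ≤ 2` -/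

/-- `Up G I D g h`: the vertex `(g,h)` has a neighbour of `D` in its `G`-layer outside `I`. -/
def Up (G : SimpleGraph V) (I : Finset V) (D : Finset (V × W)) (g : V) (h : W) : Prop :=
  ∃ x, (x, h) ∈ D ∧ x ∉ I ∧ G.Adj x g

lemma dom_of_not_up {G : SimpleGraph V} {H : SimpleGraph W} {I : Finset V}
    (hI : ∀ u ∈ I, ∀ v ∈ I, ¬ G.Adj u v) {D : Finset (V × W)} {g : V} (hg : g ∈ I) {h : W}
    (hd : Dom (G □ H) D (g, h)) (hu : ¬ Up G I D g h) : Dom H (slice D g) h := by
  rcases hd with hmem | ⟨a, ha, hadj⟩
  · exact Or.inl (mem_slice.2 hmem)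
  · rw [SimpleGraph.boxProd_adj] at hadj
    rcases hadj with ⟨h3, h4⟩ | ⟨h3, h4⟩
    · exfalso
      apply hu
      have h4' : a.2 = h := h4
      refine ⟨a.1, ?_, fun haI => hI _ haI _ hg h3, h3⟩
      rw [← h4']; exact ha
    · refine Or.inr ⟨a.2, mem_slice.2 ?_, h3⟩
      have : a = (g, a.2) := Prod.ext h4 rfl
      rw [← this]; exact ha

lemma bound_of_nonempty [Fintype V] [Fintype W] (G : SimpleGraph V) (H : SimpleGraph W)
    (g : V) : iota H ≤ iota (G □ H) := by
  classical
  obtain ⟨D, hD, hDc⟩ := exists_iota (G □ H)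
  rw [← hDc]
  refine (iota_le H (D.image Prod.snd) ?_).trans Finset.card_image_le
  intro u v huv
  have key : ∀ w, Dom (G □ H) D (g, w) → Dom H (D.image Prod.snd) w := by
    intro w hw
    rcases hw with hmem | ⟨a, ha, hadj⟩
    · exact Or.inl (Finset.mem_image.2 ⟨_, hmem, rfl⟩)
    · rw [SimpleGraph.boxProd_adj] at hadj
      rcases hadj with ⟨h3, h4⟩ | ⟨h3, h4⟩
      · exact Or.inl (Finset.mem_image.2 ⟨a, ha, h4⟩)
      · exact Or.inr ⟨a.2, Finset.mem_image.2 ⟨a, ha, rfl⟩, h3⟩
  have hadj : (G □ H).Adj (g, u) (g, v) := by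
    rw [SimpleGraph.boxProd_adj]; exact Or.inr ⟨huv, rfl⟩
  rcases hD _ _ hadj with h | h
  · exact Or.inl (key u h)
  · exact Or.inr (key v h)

lemma exists_max_indep (H : SimpleGraph W) (P : Finset W) :
    ∃ M ⊆ P, (∀ u ∈ M, ∀ v ∈ M, ¬ H.Adj u v) ∧ ∀ u ∈ P, u ∉ M → ∃ m ∈ M, H.Adj m u := by
  classical
  obtain ⟨Q, hQ⟩ : ∃ Q : Finset W → Prop, ∀ M, Q M ↔ ∀ u ∈ M, ∀ v ∈ M, ¬ H.Adj u v :=
    ⟨fun M => ∀ u ∈ M, ∀ v ∈ M, ¬ H.Adj u v, fun M => Iff.rfl⟩
  have hF : (P.powerset.filter Q).Nonempty :=
    ⟨∅, Finset.mem_filter.2 ⟨Finset.empty_mem_powerset P, (hQ ∅).2 (by simp)⟩⟩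
  obtain ⟨M, hM, hmax⟩ := (P.powerset.filter Q).exists_max_image Finset.card hF
  obtain ⟨hMP, hMi⟩ := Finset.mem_filter.1 hM
  rw [hQ] at hMi
  refine ⟨M, Finset.mem_powerset.1 hMP, hMi, ?_⟩
  intro u hu huM
  by_contra hno
  push Not at hno
  have hins : insert u M ∈ P.powerset.filter Q := by
    refine Finset.mem_filter.2 ⟨Finset.mem_powerset.2
      (Finset.insert_subset hu (Finset.mem_powerset.1 hMP)), (hQ _).2 ?_⟩
    intro a ha b hb hadj
    rcases Finset.mem_insert.1 ha with ha | ha <;> rcases Finset.mem_insert.1 hb with hb | hb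
    · rw [ha, hb] at hadj; exact H.loopless.irrefl _ hadj
    · rw [ha] at hadj; exact hno b hb hadj.symm
    · rw [hb] at hadj; exact hno a ha hadj
    · exact hMi a ha b hb hadj
  have := hmax _ hins
  rw [Finset.card_insert_of_notMem huM] at this
  omega

lemma bound_of_gammaI_two [Fintype V] [Fintype W] (G : SimpleGraph V) (H : SimpleGraph W)
    (h2 : gammaI G = 2) : 2 * iota H ≤ iota (G □ H) := by
  classical
  obtain ⟨I, hI, hk⟩ := exists_gammaI G
  rw [h2] at hk
  obtain ⟨D, hD, hDc⟩ := exists_iota (G □ H)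
  rw [← hDc]
  -- two different vertices of `I`
  obtain ⟨g₁, hg₁⟩ : I.Nonempty := by
    rw [Finset.nonempty_iff_ne_empty]
    rintro rfl
    have := domSet_le G ∅ ∅ (by simp)
    rw [hk] at this; simp at this
  obtain ⟨g₂, hg₂, hne⟩ : ∃ g ∈ I, g ≠ g₁ := by
    by_contra hno
    push Not at hno
    have := domSet_le G I {g₁} (fun v hv => Or.inl (by simp [hno v hv]))
    rw [hk] at this; simp at this
  -- number of vertices of `D` outside `I` in layer `h`
  let c : W → ℕ := fun h => (D.filter (fun q => q.1 ∉ I ∧ q.2 = h)).card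
  let P : Finset W := Finset.univ.filter (fun h => 1 ≤ c h)
  have hcpos : ∀ {h : W} {g : V}, Up G I D g h → h ∈ P := by
    intro h g hup
    obtain ⟨x, hx, hxI, -⟩ := hup
    refine Finset.mem_filter.2 ⟨Finset.mem_univ _, ?_⟩
    exact Finset.card_pos.2 ⟨(x, h), Finset.mem_filter.2 ⟨hx, hxI, rfl⟩⟩
  have hctwo : ∀ h, (∀ g ∈ I, Up G I D g h) → 2 ≤ c h := by
    intro h hall
    rw [← hk]
    refine (domSet_le G I ((D.filter (fun q => q.1 ∉ I ∧ q.2 = h)).image Prod.fst) ?_).trans
      Finset.card_image_le
    intro g hg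
    obtain ⟨x, hx, hxI, hadj⟩ := hall g hg
    exact Or.inr ⟨x, Finset.mem_image.2 ⟨(x, h), Finset.mem_filter.2 ⟨hx, hxI, rfl⟩, rfl⟩, hadj⟩
  obtain ⟨M, hMP, hMi, hMd⟩ := exists_max_indep H P
  let iso : W → Prop := fun h => ∀ h' ∈ P, ¬ H.Adj h h'
  let α : Finset W := slice D g₁ ∪ M.filter (fun h => ¬ iso h ∨ Up G I D g₁ h)
  let β : Finset W := ((I.erase g₁).biUnion (fun g => slice D g)) ∪ ((P \ M) ∪
    M.filter (fun h => iso h ∧ ∀ g ∈ I.erase g₁, Up G I D g h))
  have hα : Isolating H α := by
    have key : ∀ w, ¬ Dom H α w → ¬ Up G I D g₁ w := by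
      intro w hw hup
      have hwP : w ∈ P := hcpos hup
      by_cases hwM : w ∈ M
      · exact hw (Or.inl (Finset.mem_union_right _ (Finset.mem_filter.2 ⟨hwM, Or.inr hup⟩)))
      · obtain ⟨m, hm, hadj⟩ := hMd w hwP hwM
        refine hw (Or.inr ⟨m, Finset.mem_union_right _ (Finset.mem_filter.2 ⟨hm, Or.inl ?_⟩),
          hadj⟩)
        exact fun hiso => hiso w hwP hadj
    intro u v huv
    by_contra hno
    push Not at hno
    obtain ⟨hu, hv⟩ := hno
    have hadj : (G □ H).Adj (g₁, u) (g₁, v) := by
      rw [SimpleGraph.boxProd_adj]; exact Or.inr ⟨huv, rfl⟩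
    rcases hD _ _ hadj with h | h
    · exact hu ((dom_of_not_up hI hg₁ h (key u hu)).mono Finset.subset_union_left)
    · exact hv ((dom_of_not_up hI hg₁ h (key v hv)).mono Finset.subset_union_left)
  have hβ : Isolating H β := by
    -- an undominated vertex is outside `P`, or isolated in `P` and not all of `I \ g₁` is up
    have key : ∀ w, ¬ Dom H β w → w ∉ P ∨ (iso w ∧ ∃ g ∈ I.erase g₁, ¬ Up G I D g w) := by
      intro w hw
      by_cases hwP : w ∈ P
      · right
        have hwM : w ∈ M := by
          by_contra hwM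
          exact hw (Or.inl (Finset.mem_union_right _ (Finset.mem_union_left _
            (Finset.mem_sdiff.2 ⟨hwP, hwM⟩))))
        have hiso : iso w := by
          intro h' hh' hadj
          have hh'M : h' ∉ M := fun hM' => hMi w hwM h' hM' hadj
          exact hw (Or.inr ⟨h', Finset.mem_union_right _ (Finset.mem_union_left _
            (Finset.mem_sdiff.2 ⟨hh', hh'M⟩)), hadj.symm⟩)
        refine ⟨hiso, ?_⟩
        by_contra hno
        push Not at hno
        exact hw (Or.inl (Finset.mem_union_right _ (Finset.mem_union_right _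
          (Finset.mem_filter.2 ⟨hwM, hiso, hno⟩))))
      · exact Or.inl hwP
    intro u v huv
    by_contra hno
    push Not at hno
    obtain ⟨hu, hv⟩ := hno
    -- a common `g`
    obtain ⟨g, hg, hgu, hgv⟩ : ∃ g ∈ I.erase g₁, ¬ Up G I D g u ∧ ¬ Up G I D g v := by
      rcases key u hu with huP | ⟨hui, g, hg, hgu⟩
      · rcases key v hv with hvP | ⟨hvi, g, hg, hgv⟩
        · exact ⟨g₂, Finset.mem_erase.2 ⟨hne, hg₂⟩, fun h => huP (hcpos h),
            fun h => hvP (hcpos h)⟩
        · exact ⟨g, hg, fun h => huP (hcpos h), hgv⟩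
      · refine ⟨g, hg, hgu, fun h => ?_⟩
        exact hui v (hcpos h) huv
    have hgI : g ∈ I := Finset.mem_of_mem_erase hg
    have hsub : slice D g ⊆ β := by
      refine (Finset.subset_biUnion_of_mem (fun g => slice D g) hg).trans ?_
      exact Finset.subset_union_left
    have hadj : (G □ H).Adj (g, u) (g, v) := by
      rw [SimpleGraph.boxProd_adj]; exact Or.inr ⟨huv, rfl⟩
    rcases hD _ _ hadj with h | h
    · exact hu ((dom_of_not_up hI hgI h hgu).mono hsub)
    · exact hv ((dom_of_not_up hI hgI h hgv).mono hsub)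
  have hα' := iota_le H α hα
  have hβ' := iota_le H β hβ
  have hαc : α.card ≤ (slice D g₁).card +
      (M.filter (fun h => ¬ iso h ∨ Up G I D g₁ h)).card := Finset.card_union_le _ _
  have hβc : β.card ≤ (∑ g ∈ I.erase g₁, (slice D g).card) + ((P \ M).card +
      (M.filter (fun h => iso h ∧ ∀ g ∈ I.erase g₁, Up G I D g h)).card) := by
    refine (Finset.card_union_le _ _).trans ?_
    exact Nat.add_le_add Finset.card_biUnion_le (Finset.card_union_le _ _)
  have hM1 : (M.filter (fun h => ¬ iso h ∨ Up G I D g₁ h)).card +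
      (M.filter (fun h => iso h ∧ ∀ g ∈ I.erase g₁, Up G I D g h)).card ≤ ∑ h ∈ M, c h := by
    rw [Finset.card_filter, Finset.card_filter, ← Finset.sum_add_distrib]
    refine Finset.sum_le_sum (fun h hh => ?_)
    have hc1 : 1 ≤ c h := (Finset.mem_filter.1 (hMP hh)).2
    by_cases hi : iso h
    · by_cases hA : Up G I D g₁ h
      · by_cases hB : ∀ g ∈ I.erase g₁, Up G I D g h
        · have : 2 ≤ c h := by
            apply hctwo
            intro g hg
            by_cases hgg : g = g₁
            · rw [hgg]; exact hA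
            · exact hB g (Finset.mem_erase.2 ⟨hgg, hg⟩)
          split_ifs <;> omega
        · have : ¬ (iso h ∧ ∀ g ∈ I.erase g₁, Up G I D g h) := fun h' => hB h'.2
          rw [if_neg this]
          split_ifs <;> omega
      · have : ¬ (¬ iso h ∨ Up G I D g₁ h) := by
          rintro (h' | h')
          · exact h' hi
          · exact hA h'
        rw [if_neg this]
        split_ifs <;> omega
    · have : ¬ (iso h ∧ ∀ g ∈ I.erase g₁, Up G I D g h) := fun h' => hi h'.1
      rw [if_neg this]
      split_ifs <;> omega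
  have hM2 : (P \ M).card ≤ ∑ h ∈ P \ M, c h := by
    rw [Finset.card_eq_sum_ones]
    exact Finset.sum_le_sum (fun h hh => (Finset.mem_filter.1 (Finset.mem_sdiff.1 hh).1).2)
  have hM3 : ∑ h ∈ P \ M, c h + ∑ h ∈ M, c h = ∑ h ∈ P, c h := Finset.sum_sdiff hMP
  have hM4 : ∑ h ∈ P, c h ≤ (D.filter (fun q => q.1 ∉ I)).card := by
    have hcard : (D.filter (fun q => q.1 ∉ I)).card =
        ∑ j : W, ((D.filter (fun q => q.1 ∉ I)).filter (fun q => q.2 = j)).card :=
      Finset.card_eq_sum_card_fiberwise (f := fun q : V × W => q.2) (t := Finset.univ)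
        (fun _ _ => Finset.mem_coe.2 (Finset.mem_univ _))
    rw [hcard]
    have : ∑ h ∈ P, c h ≤ ∑ h : W, c h :=
      Finset.sum_le_sum_of_subset (Finset.subset_univ P)
    refine this.trans (le_of_eq ?_)
    refine Finset.sum_congr rfl (fun j _ => ?_)
    rw [Finset.filter_filter]
  have h6 : ∑ g ∈ I, (slice D g).card = (D.filter (fun q => q.1 ∈ I)).card := by
    have hcard : (D.filter (fun q => q.1 ∈ I)).card =
        ∑ g ∈ I, ((D.filter (fun q => q.1 ∈ I)).filter (fun q => q.1 = g)).card :=
      Finset.card_eq_sum_card_fiberwise (f := fun q : V × W => q.1) (t := I)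
        (fun q hq => (Finset.mem_filter.1 hq).2)
    rw [hcard]
    refine Finset.sum_congr rfl (fun g hg => ?_)
    rw [card_slice, Finset.filter_filter]
    congr 1
    ext q
    simp only [Finset.mem_filter]
    constructor
    · rintro ⟨h, rfl⟩; exact ⟨h, hg, rfl⟩
    · rintro ⟨h, -, h'⟩; exact ⟨h, h'⟩
  have h7 : (D.filter (fun q => q.1 ∈ I)).card + (D.filter (fun q => q.1 ∉ I)).card = D.card :=
    Finset.card_filter_add_card_filter_not _
  have h8 : ∑ g ∈ I, (slice D g).card = (slice D g₁).card + ∑ g ∈ I.erase g₁, (slice D g).card :=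
    (Finset.add_sum_erase I _ hg₁).symm
  omega

/-! ### Forests: a dual packing of edges -/

/-- A finite-depth rooted structure on an acyclic graph: adjacent vertices differ by one in
depth, and the neighbour of smaller depth is unique. -/
lemma exists_depth (H : SimpleGraph W) (hH : H.IsAcyclic) :
    ∃ d : W → ℕ, (∀ u v, H.Adj u v → d u = d v + 1 ∨ d v = d u + 1) ∧
      (∀ u u' v, H.Adj u v → H.Adj u' v → d v = d u + 1 → d v = d u' + 1 → u = u') := by
  classical
  let r : W → W := fun v => Quot.out (H.connectedComponentMk v)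
  have hr : ∀ v, H.Reachable (r v) v := fun v =>
    SimpleGraph.ConnectedComponent.exact (Quot.out_eq (H.connectedComponentMk v))
  have hrr : ∀ u v, H.Adj u v → r u = r v := by
    intro u v huv
    have : H.connectedComponentMk u = H.connectedComponentMk v :=
      SimpleGraph.ConnectedComponent.sound huv.reachable
    simp only [r, this]
  let d : W → ℕ := fun v => H.dist (r v) v
  have key : ∀ u v (huv : H.Adj u v), d u ≤ d v →
      ∃ p : H.Walk (r v) u, (p.concat huv).IsPath ∧ d v = d u + 1 := by
    intro u v huv hle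
    have hru := hr u
    have hdu : d u = H.dist (r v) u := by simp only [d]; rw [hrr u v huv]
    rw [hrr u v huv] at hru
    obtain ⟨p, hp, hpl⟩ := hru.exists_path_of_dist
    obtain ⟨q, hq, hql⟩ := (hr v).exists_path_of_dist
    have hv : v ∉ p.support := by
      intro hmem
      have h1 := p.length_takeUntil_lt_length hmem huv.ne'
      have h2 := SimpleGraph.dist_le (p.takeUntil v hmem)
      have h3 : d v = H.dist (r v) v := rfl
      omega
    have hc : (p.concat huv).IsPath := hp.concat hv huv
    refine ⟨p, hc, ?_⟩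
    have := (hH.subsingleton_path (r v) v).elim ⟨q, hq⟩ ⟨p.concat huv, hc⟩
    have h4 : q = p.concat huv := congrArg Subtype.val this
    have h5 : q.length = p.length + 1 := by rw [h4, SimpleGraph.Walk.length_concat]
    have h3 : d v = H.dist (r v) v := rfl
    omega
  refine ⟨d, ?_, ?_⟩
  · intro u v huv
    rcases le_total (d u) (d v) with h | h
    · obtain ⟨-, -, h'⟩ := key u v huv h
      exact Or.inr h'
    · obtain ⟨-, -, h'⟩ := key v u huv.symm h
      exact Or.inl h'
  · intro u u' v huv hu'v h h'
    obtain ⟨p, hp, -⟩ := key u v huv (by omega)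
    obtain ⟨p', hp', -⟩ := key u' v hu'v (by omega)
    have := (hH.subsingleton_path (r v) v).elim ⟨p.concat huv, hp⟩ ⟨p'.concat hu'v, hp'⟩
    have h4 : p.concat huv = p'.concat hu'v := congrArg Subtype.val this
    have h5 := congrArg SimpleGraph.Walk.penultimate h4
    simpa using h5


/-- `x` lies in the closed neighbourhood of the edge `u v`. -/
def Near (H : SimpleGraph W) (x u v : W) : Prop := (x = u ∨ H.Adj x u) ∨ (x = v ∨ H.Adj x v)

lemma forest_step (H : SimpleGraph W) (d : W → ℕ)
    (hd1 : ∀ u v, H.Adj u v → d u = d v + 1 ∨ d v = d u + 1)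
    (hd2 : ∀ u u' v, H.Adj u v → H.Adj u' v → d v = d u + 1 → d v = d u' + 1 → u = u')
    (u v s : W) (huv : H.Adj u v) (hdv : d v = d u + 1)
    (hs : (H.Adj s u ∧ d u = d s + 1) ∨ (s = u ∧ ∀ p, H.Adj p u → d u ≠ d p + 1))
    (x y z : W) (hx : Near H x u v) (hxy : x = y ∨ H.Adj x y) (hyz : H.Adj y z)
    (hy : d y ≤ d v) (hz : d z ≤ d v) : Near H s y z := by
  have huy : (s = y ∨ H.Adj s y) ∨ y = u ∨ H.Adj u y := by
    -- `x` a child of `u`
    have child : ∀ x, H.Adj x u → d x = d u + 1 → (x = y ∨ H.Adj x y) → y = u ∨ H.Adj u y := by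
      intro x hxu hdx hxy
      rcases hxy with rfl | hxy
      · exact Or.inr hxu.symm
      · rcases hd1 x y hxy with h | h
        · exact Or.inl (hd2 y u x hxy.symm hxu.symm h hdx)
        · omega
    have eq : ∀ x, x = u → (x = y ∨ H.Adj x y) → y = u ∨ H.Adj u y := by
      rintro x rfl (rfl | h)
      · exact Or.inl rfl
      · exact Or.inr h
    rcases hx with (hx | hx) | (hx | hx)
    · exact Or.inr (eq x hx hxy)
    · rcases hd1 x u hx with h | h
      · exact Or.inr (child x hx h hxy)
      · rcases hs with ⟨hsu, hds⟩ | ⟨-, hno⟩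
        · have : s = x := hd2 s x u hsu hx hds h
          left; rw [this]; exact hxy
        · exact absurd h (hno x hx)
    · subst hx
      exact Or.inr (child _ huv.symm hdv hxy)
    · rcases hd1 x v hx with h | h
      · rcases hxy with rfl | hxy
        · omega
        · rcases hd1 x y hxy with h' | h'
          · have : y = v := hd2 y v x hxy.symm hx.symm h' h
            right; right; rw [this]; exact huv
          · omega
      · have : x = u := hd2 x u v hx huv h hdv
        exact Or.inr (eq x this hxy)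
  rcases huy with h | rfl | h
  · exact Or.inl h
  · rcases hs with ⟨hsu, -⟩ | ⟨hsu, -⟩
    · exact Or.inl (Or.inr hsu)
    · exact Or.inl (Or.inl hsu)
  · rcases hd1 u y h with h' | h'
    · rcases hs with ⟨hsu, hds⟩ | ⟨-, hno⟩
      · exact Or.inl (Or.inl (hd2 s y u hsu h.symm hds h'))
      · exact absurd h' (hno y h.symm)
    · rcases hd1 y z hyz with h'' | h''
      · have : z = u := hd2 z u y hyz.symm h h'' h'
        subst this
        rcases hs with ⟨hsu, -⟩ | ⟨hsu, -⟩
        · exact Or.inr (Or.inr hsu)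
        · exact Or.inr (Or.inl hsu)
      · omega

lemma forest_packing_aux [Fintype W] (H : SimpleGraph W) (d : W → ℕ)
    (hd1 : ∀ u v, H.Adj u v → d u = d v + 1 ∨ d v = d u + 1)
    (hd2 : ∀ u u' v, H.Adj u v → H.Adj u' v → d v = d u + 1 → d v = d u' + 1 → u = u')
    (n : ℕ) : ∀ X : Finset W, Fintype.card W - X.card = n → ∃ (Y : Finset W) (P : Finset (W × W)),
      Y.card ≤ P.card ∧
      (∀ u v, H.Adj u v → ∃ x, (x ∈ X ∨ x ∈ Y) ∧ Near H x u v) ∧
      (∀ e ∈ P, H.Adj e.1 e.2) ∧ (∀ e ∈ P, ∀ x ∈ X, ¬ Near H x e.1 e.2) ∧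
      (∀ e ∈ P, ∀ f ∈ P, e ≠ f → ∀ x, Near H x e.1 e.2 → ¬ Near H x f.1 f.2) := by
  classical
  induction n using Nat.strong_induction_on with
  | _ n ih =>
    intro X hn
    by_cases hX : ∀ u v, H.Adj u v → ∃ x ∈ X, Near H x u v
    · refine ⟨∅, ∅, by simp, ?_, by simp, by simp, by simp⟩
      intro u v huv
      obtain ⟨x, hx, h⟩ := hX u v huv
      exact ⟨x, Or.inl hx, h⟩
    · push Not at hX
      have swap : ∀ {x u v}, Near H x u v → Near H x v u := fun h => h.symm
      let F : Finset (W × W) := Finset.univ.filter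
        (fun e => H.Adj e.1 e.2 ∧ (∀ x ∈ X, ¬ Near H x e.1 e.2) ∧ d e.2 = d e.1 + 1)
      have hF : F.Nonempty := by
        obtain ⟨u, v, huv, hun⟩ := hX
        rcases hd1 u v huv with h | h
        · exact ⟨(v, u), Finset.mem_filter.2 ⟨Finset.mem_univ _, huv.symm,
            fun x hx h' => hun x hx (swap h'), h⟩⟩
        · exact ⟨(u, v), Finset.mem_filter.2 ⟨Finset.mem_univ _, huv, hun, h⟩⟩
      obtain ⟨⟨u, v⟩, hmem, hmax⟩ := F.exists_max_image (fun e => d e.2) hF
      obtain ⟨-, huv, hun, hdv⟩ := Finset.mem_filter.1 hmem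
      simp only at huv hun hdv hmax
      obtain ⟨s, hs⟩ : ∃ s, (H.Adj s u ∧ d u = d s + 1) ∨
          (s = u ∧ ∀ p, H.Adj p u → d u ≠ d p + 1) := by
        by_cases h : ∃ p, H.Adj p u ∧ d u = d p + 1
        · obtain ⟨p, hp⟩ := h
          exact ⟨p, Or.inl hp⟩
        · push Not at h
          exact ⟨u, Or.inr ⟨rfl, h⟩⟩
      have hsn : Near H s u v := by
        rcases hs with ⟨h, -⟩ | ⟨h, -⟩
        · exact Or.inl (Or.inr h)
        · exact Or.inl (Or.inl h)
      have hsX : s ∉ X := fun h => hun s h hsn
      have hlt : X.card < Fintype.card W := by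
        have h1 := Finset.card_lt_card (Finset.ssubset_insert hsX)
        have h2 := (insert s X).card_le_univ
        omega
      obtain ⟨Y, P, hYP, hiso, hPadj, hPun, hPd⟩ := ih (Fintype.card W - (insert s X).card)
        (by rw [Finset.card_insert_of_notMem hsX]; omega) (insert s X) rfl
      have hunP : (u, v) ∉ P := fun h => hPun _ h s (Finset.mem_insert_self _ _) hsn
      have hconf : ∀ f ∈ P, ∀ x, Near H x u v → ¬ Near H x f.1 f.2 := by
        intro f hf x hxe hxf
        have hadj := hPadj f hf
        have hunf : ∀ x ∈ X, ¬ Near H x f.1 f.2 :=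
          fun x hx => hPun f hf x (Finset.mem_insert_of_mem hx)
        have hb : d f.1 ≤ d v ∧ d f.2 ≤ d v := by
          rcases hd1 _ _ hadj with h | h
          · have := hmax (f.2, f.1) (Finset.mem_filter.2 ⟨Finset.mem_univ _, hadj.symm,
              fun x hx h' => hunf x hx (swap h'), h⟩)
            simp only at this
            omega
          · have := hmax (f.1, f.2) (Finset.mem_filter.2 ⟨Finset.mem_univ _, hadj, hunf, h⟩)
            simp only at this
            omega
        apply hPun f hf s (Finset.mem_insert_self _ _)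
        rcases hxf with h | h
        · exact forest_step H d hd1 hd2 u v s huv hdv hs x f.1 f.2 hxe h hadj hb.1 hb.2
        · exact swap (forest_step H d hd1 hd2 u v s huv hdv hs x f.2 f.1 hxe h hadj.symm
            hb.2 hb.1)
      refine ⟨insert s Y, insert (u, v) P, ?_, ?_, ?_, ?_, ?_⟩
      · rw [Finset.card_insert_of_notMem hunP]
        exact (Finset.card_insert_le _ _).trans (by omega)
      · intro a b hab
        obtain ⟨x, hx, h⟩ := hiso a b hab
        refine ⟨x, ?_, h⟩
        simp only [Finset.mem_insert] at hx ⊢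
        tauto
      · intro e he
        rcases Finset.mem_insert.1 he with rfl | he
        · exact huv
        · exact hPadj e he
      · intro e he x hx
        rcases Finset.mem_insert.1 he with rfl | he
        · exact hun x hx
        · exact hPun e he x (Finset.mem_insert_of_mem hx)
      · intro e he f hf hef x hxe hxf
        rcases Finset.mem_insert.1 he with rfl | he
        · rcases Finset.mem_insert.1 hf with rfl | hf
          · exact hef rfl
          · exact hconf f hf x hxe hxf
        · rcases Finset.mem_insert.1 hf with rfl | hf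
          · exact hconf e he x hxf hxe
          · exact hPd e he f hf hef x hxe hxf


/-! ### `G` a forest -/

/-- `x` lies in the closed neighbourhood of `v`. -/
def NearV (G : SimpleGraph V) (x v : V) : Prop := x = v ∨ G.Adj x v

lemma forest_dom_aux [Fintype V] (G : SimpleGraph V) (d : V → ℕ)
    (hd1 : ∀ u v, G.Adj u v → d u = d v + 1 ∨ d v = d u + 1)
    (hd2 : ∀ u u' v, G.Adj u v → G.Adj u' v → d v = d u + 1 → d v = d u' + 1 → u = u')
    (n : ℕ) : ∀ X : Finset V, Fintype.card V - X.card = n → ∃ (Y P : Finset V),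
      Y.card ≤ P.card ∧
      (∀ v, ∃ x, (x ∈ X ∨ x ∈ Y) ∧ NearV G x v) ∧
      (∀ v ∈ P, ∀ x ∈ X, ¬ NearV G x v) ∧
      (∀ v ∈ P, ∀ w ∈ P, v ≠ w → ∀ x, NearV G x v → ¬ NearV G x w) := by
  classical
  induction n using Nat.strong_induction_on with
  | _ n ih =>
    intro X hn
    by_cases hX : ∀ v, ∃ x ∈ X, NearV G x v
    · refine ⟨∅, ∅, by simp, ?_, by simp, by simp⟩
      intro v
      obtain ⟨x, hx, h⟩ := hX v
      exact ⟨x, Or.inl hx, h⟩
    · push Not at hX
      let F : Finset V := Finset.univ.filter (fun v => ∀ x ∈ X, ¬ NearV G x v)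
      have hF : F.Nonempty := by
        obtain ⟨v, hv⟩ := hX
        exact ⟨v, Finset.mem_filter.2 ⟨Finset.mem_univ _, hv⟩⟩
      obtain ⟨v, hmem, hmax⟩ := F.exists_max_image d hF
      obtain ⟨-, hun⟩ := Finset.mem_filter.1 hmem
      obtain ⟨s, hs⟩ : ∃ s, (G.Adj s v ∧ d v = d s + 1) ∨
          (s = v ∧ ∀ p, G.Adj p v → d v ≠ d p + 1) := by
        by_cases h : ∃ p, G.Adj p v ∧ d v = d p + 1
        · obtain ⟨p, hp⟩ := h
          exact ⟨p, Or.inl hp⟩
        · push Not at h
          exact ⟨v, Or.inr ⟨rfl, h⟩⟩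
      have hsn : NearV G s v := by
        rcases hs with ⟨h, -⟩ | ⟨h, -⟩
        · exact Or.inr h
        · exact Or.inl h
      have hsX : s ∉ X := fun h => hun s h hsn
      have hlt : X.card < Fintype.card V := by
        have h1 := Finset.card_lt_card (Finset.ssubset_insert hsX)
        have h2 := (insert s X).card_le_univ
        omega
      obtain ⟨Y, P, hYP, hdom, hPun, hPd⟩ := ih (Fintype.card V - (insert s X).card)
        (by rw [Finset.card_insert_of_notMem hsX]; omega) (insert s X) rfl
      have hvP : v ∉ P := fun h => hPun _ h s (Finset.mem_insert_self _ _) hsn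
      have hconf : ∀ w ∈ P, ∀ x, NearV G x v → ¬ NearV G x w := by
        intro w hw x hxv hxw
        have hunw : ∀ x ∈ X, ¬ NearV G x w :=
          fun x hx => hPun w hw x (Finset.mem_insert_of_mem hx)
        have hb : d w ≤ d v := hmax w (Finset.mem_filter.2 ⟨Finset.mem_univ _, hunw⟩)
        have hwv : w ≠ v := fun h => hvP (h ▸ hw)
        apply hPun w hw s (Finset.mem_insert_self _ _)
        -- if `w` is a neighbour of `v` then `w = s`
        have hnb : G.Adj v w → NearV G s w := by
          intro hvw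
          rcases hd1 v w hvw with h | h
          · rcases hs with ⟨hsv, hds⟩ | ⟨-, hno⟩
            · exact Or.inl (hd2 s w v hsv hvw.symm hds h)
            · exact absurd h (hno w hvw.symm)
          · omega
        rcases hxv with hxv | hxv
        · rcases hxw with hxw | hxw
          · exact absurd (hxw.symm.trans hxv) hwv
          · exact hnb (hxv ▸ hxw)
        · rcases hd1 x v hxv with h | h
          · -- `x` is a child of `v`
            rcases hxw with hxw | hxw
            · rw [hxw] at h; omega
            · rcases hd1 x w hxw with h' | h'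
              · exact absurd (hd2 w v x hxw.symm hxv.symm h' h) hwv
              · omega
          · -- `x` is the parent of `v`
            rcases hs with ⟨hsv, hds⟩ | ⟨-, hno⟩
            · have : s = x := hd2 s x v hsv hxv hds h
              rw [this]; exact hxw
            · exact absurd h (hno x hxv)
      refine ⟨insert s Y, insert v P, ?_, ?_, ?_, ?_⟩
      · rw [Finset.card_insert_of_notMem hvP]
        exact (Finset.card_insert_le _ _).trans (by omega)
      · intro a
        obtain ⟨x, hx, h⟩ := hdom a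
        refine ⟨x, ?_, h⟩
        simp only [Finset.mem_insert] at hx ⊢
        tauto
      · intro w hw x hx
        rcases Finset.mem_insert.1 hw with rfl | hw
        · exact hun x hx
        · exact hPun w hw x (Finset.mem_insert_of_mem hx)
      · intro w hw z hz hwz x hxw hxz
        rcases Finset.mem_insert.1 hw with hw' | hw'
        · rcases Finset.mem_insert.1 hz with hz' | hz'
          · exact hwz (hw'.trans hz'.symm)
          · exact hconf z hz' x (hw' ▸ hxw) hxz
        · rcases Finset.mem_insert.1 hz with hz' | hz'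
          · exact hconf w hw' x (hz' ▸ hxz) hxw
          · exact hPd w hw' z hz' hwz x hxw hxz

/-- For every vertex `g`, the columns over `N[g]` contain at least `iota H` vertices of an
isolating set of the product. -/
lemma iota_le_column [Fintype V] [Fintype W] [DecidableEq V] [DecidableEq W]
    (G : SimpleGraph V) (H : SimpleGraph W)
    (D : Finset (V × W)) (hD : Isolating (G □ H) D) (g : V)
    [DecidablePred fun q : V × W => NearV G q.1 g] :
    iota H ≤ (D.filter (fun q => NearV G q.1 g)).card := by
  classical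
  refine (iota_le H ((D.filter (fun q => NearV G q.1 g)).image Prod.snd) ?_).trans
    Finset.card_image_le
  intro u v huv
  have key : ∀ w, Dom (G □ H) D (g, w) →
      Dom H ((D.filter (fun q => NearV G q.1 g)).image Prod.snd) w := by
    intro w hw
    rcases hw with hmem | ⟨a, ha, hadj⟩
    · exact Or.inl (Finset.mem_image.2 ⟨_, Finset.mem_filter.2 ⟨hmem, Or.inl rfl⟩, rfl⟩)
    · rw [SimpleGraph.boxProd_adj] at hadj
      rcases hadj with ⟨h3, h4⟩ | ⟨h3, h4⟩
      · exact Or.inl (Finset.mem_image.2 ⟨a, Finset.mem_filter.2 ⟨ha, Or.inr h3⟩, h4⟩)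
      · exact Or.inr ⟨a.2, Finset.mem_image.2 ⟨a, Finset.mem_filter.2 ⟨ha, Or.inl h4⟩, rfl⟩,
          h3⟩
  have hadj : (G □ H).Adj (g, u) (g, v) := by
    rw [SimpleGraph.boxProd_adj]; exact Or.inr ⟨huv, rfl⟩
  rcases hD _ _ hadj with h | h
  · exact Or.inl (key u h)
  · exact Or.inr (key v h)

/-- For every edge `u v` of `H`, the layers over `N[u] ∪ N[v]` contain at least `gamma G`
vertices of an isolating set of the product. -/
lemma gamma_le_layer [Fintype V] [Fintype W] [DecidableEq V] [DecidableEq W]
    (G : SimpleGraph V) (H : SimpleGraph W)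
    (D : Finset (V × W)) (hD : Isolating (G □ H) D) (u v : W) (huv : H.Adj u v)
    [DecidablePred fun q : V × W => Near H q.2 u v] :
    gamma G ≤ (D.filter (fun q => Near H q.2 u v)).card := by
  classical
  refine (gamma_le G ((D.filter (fun q => Near H q.2 u v)).image Prod.fst) ?_).trans
    Finset.card_image_le
  intro g
  have key : ∀ w, (∀ y, (y = w ∨ H.Adj y w) → Near H y u v) → Dom (G □ H) D (g, w) →
      Dom G ((D.filter (fun q => Near H q.2 u v)).image Prod.fst) g := by
    intro w hn hw
    rcases hw with hmem | ⟨a, ha, hadj⟩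
    · exact Or.inl (Finset.mem_image.2 ⟨_, Finset.mem_filter.2 ⟨hmem, hn _ (Or.inl rfl)⟩, rfl⟩)
    · rw [SimpleGraph.boxProd_adj] at hadj
      rcases hadj with ⟨h3, h4⟩ | ⟨h3, h4⟩
      · exact Or.inr ⟨a.1, Finset.mem_image.2 ⟨a, Finset.mem_filter.2
          ⟨ha, hn _ (Or.inl h4)⟩, rfl⟩, h3⟩
      · exact Or.inl (Finset.mem_image.2 ⟨a, Finset.mem_filter.2 ⟨ha, hn _ (Or.inr h3)⟩, h4⟩)
  have hadj : (G □ H).Adj (g, u) (g, v) := by
    rw [SimpleGraph.boxProd_adj]; exact Or.inr ⟨huv, rfl⟩
  rcases hD _ _ hadj with h | h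
  · exact key u (fun y hy => Or.inl hy) h
  · exact key v (fun y hy => Or.inr hy) h

open Classical in
/-- A fractional packing of edge-neighbourhoods of `H`: nonnegative weights `m` on the ordered
edges of `H` such that, for each vertex `x`, the edges whose closed neighbourhood contains `x`
have total weight at most `1`.  By linear-programming duality the largest total weight is the
fractional isolation number of `H`. -/
def IsEdgePacking [Fintype W] (H : SimpleGraph W) (m : W × W → ℝ) : Prop :=
  (∀ e, 0 ≤ m e) ∧ (∀ e, ¬ H.Adj e.1 e.2 → m e = 0) ∧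
    ∀ x, ∑ e : W × W, (if Near H x e.1 e.2 then m e else 0) ≤ 1

open Classical in
/-- A fractional packing of closed neighbourhoods of `G`: nonnegative weights on the vertices
such that every closed neighbourhood has total weight at most `1`.  By linear-programming
duality the largest total weight is the fractional domination number of `G`. -/
def IsVertexPacking [Fintype V] (G : SimpleGraph V) (m : V → ℝ) : Prop :=
  (∀ v, 0 ≤ m v) ∧ ∀ x, ∑ v : V, (if NearV G x v then m v else 0) ≤ 1

lemma edge_packing_bound [Fintype V] [Fintype W] (G : SimpleGraph V) (H : SimpleGraph W)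
    (m : W × W → ℝ) (hm : IsEdgePacking H m) :
    (gamma G : ℝ) * ∑ e, m e ≤ iota (G □ H) := by
  classical
  obtain ⟨D, hD, hDc⟩ := exists_iota (G □ H)
  rw [← hDc]
  obtain ⟨hm0, hm1, hm2⟩ := hm
  have h1 : ∀ e : W × W, (gamma G : ℝ) * m e ≤
      ∑ q ∈ D, (if Near H q.2 e.1 e.2 then m e else 0) := by
    intro e
    by_cases he : H.Adj e.1 e.2
    · have h2 := gamma_le_layer G H D hD e.1 e.2 he
      rw [← Finset.sum_filter, Finset.sum_const, nsmul_eq_mul]
      exact mul_le_mul_of_nonneg_right (by exact_mod_cast h2) (hm0 e)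
    · rw [hm1 e he]; simp
  calc (gamma G : ℝ) * ∑ e, m e = ∑ e, (gamma G : ℝ) * m e := Finset.mul_sum _ _ _
    _ ≤ ∑ e, ∑ q ∈ D, (if Near H q.2 e.1 e.2 then m e else 0) :=
        Finset.sum_le_sum (fun e _ => h1 e)
    _ = ∑ q ∈ D, ∑ e, (if Near H q.2 e.1 e.2 then m e else 0) := Finset.sum_comm
    _ ≤ ∑ q ∈ D, (1 : ℝ) := Finset.sum_le_sum (fun q _ => by convert hm2 q.2)
    _ = (D.card : ℝ) := by simp

lemma vertex_packing_bound [Fintype V] [Fintype W] (G : SimpleGraph V) (H : SimpleGraph W)
    (m : V → ℝ) (hm : IsVertexPacking G m) :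
    (∑ v, m v) * (iota H : ℝ) ≤ iota (G □ H) := by
  classical
  obtain ⟨D, hD, hDc⟩ := exists_iota (G □ H)
  rw [← hDc]
  obtain ⟨hm0, hm2⟩ := hm
  have h1 : ∀ v : V, m v * (iota H : ℝ) ≤ ∑ q ∈ D, (if NearV G q.1 v then m v else 0) := by
    intro v
    have h2 := iota_le_column G H D hD v
    rw [← Finset.sum_filter, Finset.sum_const, nsmul_eq_mul, mul_comm]
    exact mul_le_mul_of_nonneg_right (by exact_mod_cast h2) (hm0 v)
  calc (∑ v, m v) * (iota H : ℝ) = ∑ v, m v * (iota H : ℝ) := Finset.sum_mul _ _ _
    _ ≤ ∑ v, ∑ q ∈ D, (if NearV G q.1 v then m v else 0) :=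
        Finset.sum_le_sum (fun e _ => h1 e)
    _ = ∑ q ∈ D, ∑ v, (if NearV G q.1 v then m v else 0) := Finset.sum_comm
    _ ≤ ∑ q ∈ D, (1 : ℝ) := Finset.sum_le_sum (fun q _ => by convert hm2 q.1)
    _ = (D.card : ℝ) := by simp

lemma gammaI_le_gamma [Fintype V] (G : SimpleGraph V) : gammaI G ≤ gamma G := by
  obtain ⟨I, -, hk⟩ := exists_gammaI G
  obtain ⟨Y, hY, hYc⟩ := exists_gamma G
  rw [← hk, ← hYc]
  exact domSet_le G I Y (fun v _ => hY v)

lemma bound_of_right_forest [Fintype V] [Fintype W] (G : SimpleGraph V) (H : SimpleGraph W)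
    (hH : H.IsAcyclic) : gamma G * iota H ≤ iota (G □ H) := by
  classical
  obtain ⟨d, hd1, hd2⟩ := exists_depth H hH
  obtain ⟨Y, P, hYP, hiso, hPadj, -, hPd⟩ := forest_packing_aux H d hd1 hd2 _ ∅ rfl
  have h1 : iota H ≤ Y.card := by
    apply iota_le
    intro u v huv
    obtain ⟨x, hx, h⟩ := hiso u v huv
    have hxY : x ∈ Y := by simpa using hx
    rcases h with (h | h) | (h | h)
    · exact Or.inl (Or.inl (h ▸ hxY))
    · exact Or.inl (Or.inr ⟨x, hxY, h⟩)
    · exact Or.inr (Or.inl (h ▸ hxY))
    · exact Or.inr (Or.inr ⟨x, hxY, h⟩)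
  have h2 : IsEdgePacking H (fun e => if e ∈ P then (1 : ℝ) else 0) := by
    refine ⟨fun e => by positivity, fun e he => ?_, fun x => ?_⟩
    · change (if e ∈ P then (1 : ℝ) else 0) = 0
      rw [if_neg (fun h => he (hPadj e h))]
    · have h3 : ∑ e : W × W, (if Near H x e.1 e.2 then (if e ∈ P then (1 : ℝ) else 0) else 0) =
          ((P.filter (fun e => Near H x e.1 e.2)).card : ℝ) := by
        rw [Finset.card_filter]
        push_cast
        rw [← Finset.sum_subset (Finset.subset_univ P)]
        · refine Finset.sum_congr rfl (fun e he => ?_)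
          simp [he]
        · intro e _ he
          simp [he]
      have h4 : (P.filter (fun e => Near H x e.1 e.2)).card ≤ 1 := by
        rw [Finset.card_le_one]
        intro e he f hf
        by_contra hne
        exact hPd e (Finset.mem_filter.1 he).1 f (Finset.mem_filter.1 hf).1 hne x
          (Finset.mem_filter.1 he).2 (Finset.mem_filter.1 hf).2
      calc _ = ((P.filter (fun e => Near H x e.1 e.2)).card : ℝ) := by
            rw [← h3]
        _ ≤ 1 := by exact_mod_cast h4
  have h5 := edge_packing_bound G H _ h2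
  have h6 : ∑ e : W × W, (if e ∈ P then (1 : ℝ) else 0) = (P.card : ℝ) := by
    simp
  rw [h6] at h5
  have h7 : gamma G * P.card ≤ iota (G □ H) := by exact_mod_cast h5
  exact (Nat.mul_le_mul_left _ (h1.trans hYP)).trans h7

lemma bound_of_left_forest [Fintype V] [Fintype W] (G : SimpleGraph V) (H : SimpleGraph W)
    (hG : G.IsAcyclic) : gamma G * iota H ≤ iota (G □ H) := by
  classical
  obtain ⟨d, hd1, hd2⟩ := exists_depth G hG
  obtain ⟨Y, P, hYP, hdom, -, hPd⟩ := forest_dom_aux G d hd1 hd2 _ ∅ rfl
  have h1 : gamma G ≤ Y.card := gamma_le G Y (fun v => by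
    obtain ⟨x, hx, h⟩ := hdom v
    have hxY : x ∈ Y := by simpa using hx
    rcases h with h | h
    · exact Or.inl (h ▸ hxY)
    · exact Or.inr ⟨x, hxY, h⟩)
  have h2 : IsVertexPacking G (fun v => if v ∈ P then (1 : ℝ) else 0) := by
    refine ⟨fun e => by positivity, fun x => ?_⟩
    have h3 : ∑ v : V, (if NearV G x v then (if v ∈ P then (1 : ℝ) else 0) else 0) =
        ((P.filter (fun v => NearV G x v)).card : ℝ) := by
      rw [Finset.card_filter]
      push_cast
      rw [← Finset.sum_subset (Finset.subset_univ P)]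
      · refine Finset.sum_congr rfl (fun e he => ?_)
        simp [he]
      · intro e _ he
        simp [he]
    have h4 : (P.filter (fun v => NearV G x v)).card ≤ 1 := by
      rw [Finset.card_le_one]
      intro e he f hf
      by_contra hne
      exact hPd e (Finset.mem_filter.1 he).1 f (Finset.mem_filter.1 hf).1 hne x
        (Finset.mem_filter.1 he).2 (Finset.mem_filter.1 hf).2
    calc _ = ((P.filter (fun v => NearV G x v)).card : ℝ) := by
          rw [← h3]
      _ ≤ 1 := by exact_mod_cast h4
  have h5 := vertex_packing_bound G H _ h2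
  have h6 : ∑ v : V, (if v ∈ P then (1 : ℝ) else 0) = (P.card : ℝ) := by
    simp
  rw [h6] at h5
  have h7 : P.card * iota H ≤ iota (G □ H) := by exact_mod_cast h5
  exact (Nat.mul_le_mul_right _ (h1.trans hYP)).trans h7

/-- Lower bounds for the isolation number of a Cartesian product `G □ H` of finite graphs.

1. `gamma G * iota* H ≤ iota (G □ H)` for all `G, H` (every fractional edge packing of `H`).
2. `gamma* G * iota H ≤ iota (G □ H)` for all `G, H` (every fractional vertex packing of `G`).
3. `gamma G * iota H ≤ iota (G □ H)` when one factor is a forest.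
4. `gammaI G * iota H ≤ iota (G □ H)` when `gammaI G ≤ 2`, or `iota H ≤ 2`, or
   `iota H = gamma H`, or one factor is a forest. -/
theorem result {V W : Type*} [Fintype V] [Fintype W] (G : SimpleGraph V) (H : SimpleGraph W) :
    (∀ m : W × W → ℝ, IsEdgePacking H m → (gamma G : ℝ) * ∑ e, m e ≤ iota (G □ H)) ∧
    (∀ m : V → ℝ, IsVertexPacking G m → (∑ v, m v) * (iota H : ℝ) ≤ iota (G □ H)) ∧
    (G.IsAcyclic ∨ H.IsAcyclic → gamma G * iota H ≤ iota (G □ H)) ∧
    (gammaI G ≤ 2 ∨ iota H ≤ 2 ∨ iota H = gamma H ∨ G.IsAcyclic ∨ H.IsAcyclic →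
      gammaI G * iota H ≤ iota (G □ H)) := by
  classical
  refine ⟨edge_packing_bound G H, vertex_packing_bound G H, ?_, ?_⟩
  · rintro (h | h)
    · exact bound_of_left_forest G H h
    · exact bound_of_right_forest G H h
  · rintro (h | h | h | h | h)
    · have h3 : gammaI G = 0 ∨ gammaI G = 1 ∨ gammaI G = 2 := by omega
      rcases h3 with h3 | h3 | h3
      · rw [h3]; simp
      · rw [h3, one_mul]
        obtain ⟨g⟩ : Nonempty V := by
          by_contra hV
          rw [not_nonempty_iff] at hV
          obtain ⟨I, -, hk⟩ := exists_gammaI G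
          have h4 := domSet_le G I ∅ (fun v _ => isEmptyElim v)
          rw [hk, h3] at h4
          simp at h4
        exact bound_of_nonempty G H g
      · rw [h3]; exact bound_of_gammaI_two G H h3
    · have h3 : iota H = 0 ∨ iota H = 1 ∨ iota H = 2 := by omega
      rcases h3 with h3 | h3 | h3
      · exact bound_of_iota_zero G H h3
      · exact bound_of_iota_one G H h3
      · exact bound_of_iota_two G H h3
    · exact bound_of_gamma G H h
    · exact (Nat.mul_le_mul_right _ (gammaI_le_gamma G)).trans (bound_of_left_forest G H h)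
    · exact (Nat.mul_le_mul_right _ (gammaI_le_gamma G)).trans (bound_of_right_forest G H h)

end Pool.Agent.Results.MP_33f02b_co.IsolationProductBounds
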